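import Pool.Agent.CPT.StmtsA

set_option autoImplicit false

/-! CPT, row GRD: the greedy point. -/

namespace Pool.Agent.CPT.H23

open MvPolynomial Pool.Agent.BSH Pool.Agent.Helper78_ACIT

section

variable {E : Type} [Field E]

theorem spec_eq {n : ℕ} (c : E) (F : MvPolynomial (Fin (n + 1)) E) :
    spec c F = Polynomial.eval (C c) (finSuccEquiv E n F) := by
  have h : (spec c : MvPolynomial (Fin (n + 1)) E →ₐ[E] MvPolynomial (Fin n) E).toRingHom =
      (Polynomial.evalRingHom (C c)).comp (finSuccEquiv E n).toRingEquiv.toRingHom := by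
    apply MvPolynomial.ringHom_ext
    · intro r
      simp [spec, finSuccEquiv_apply]
    · intro i
      refine Fin.cases ?_ ?_ i
      · simp [spec, finSuccEquiv_apply]
      · intro j
        simp [spec, finSuccEquiv_apply]
  exact congrFun (congrArg DFunLike.coe h) F

theorem spec_exists {n : ℕ} {θ : ℕ → E} (hθ : Function.Injective θ)
    {F : MvPolynomial (Fin (n + 1)) E} (hF : F ≠ 0) : ∃ a, spec (θ a) F ≠ 0 := by
  by_contra hcon
  push Not at hcon
  have h0 : finSuccEquiv E n F = 0 := by
    apply Polynomial.eq_zero_of_infinite_isRoot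
    refine Set.Infinite.mono (s := Set.range (fun a : ℕ => (C (θ a) : MvPolynomial (Fin n) E))) ?_
      (Set.infinite_range_of_injective ?_)
    · rintro _ ⟨a, rfl⟩
      change Polynomial.eval _ _ = 0
      rw [← spec_eq]
      exact hcon a
    · intro a b hab
      exact hθ (C_injective _ _ hab)
  exact hF ((map_eq_zero_iff _ (finSuccEquiv E n).injective).1 h0)

theorem spec_dvd {n : ℕ} {e : E} {F : MvPolynomial (Fin (n + 1)) E} (h : spec e F = 0) :
    (X 0 - C e) ∣ F := by
  rw [spec_eq] at h
  have h1 := Polynomial.dvd_iff_isRoot.2 h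
  have h2 : finSuccEquiv E n (X 0 - C e) = Polynomial.X - Polynomial.C (C e) := by
    rw [map_sub, finSuccEquiv_X_zero]
    congr 1
    simp [finSuccEquiv_apply]
  rw [← h2] at h1
  exact (map_dvd_iff (finSuccEquiv E n)).1 h1

theorem spec_rename {k : ℕ} (e : E) (p : MvPolynomial (Fin k) E) :
    spec e (rename Fin.succ p) = p := by
  unfold spec
  rw [aeval_rename]
  have : (Fin.cons (C e) X : Fin (k + 1) → MvPolynomial (Fin k) E) ∘ Fin.succ = X := by
    funext i
    simp
  rw [this, aeval_X_left_apply]

theorem aeval_cons {n k : ℕ} (e : E) (ρ' : Fin n → MvPolynomial (Fin k) E)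
    (F : MvPolynomial (Fin (n + 1)) E) :
    aeval (Fin.cons (C e) ρ' : Fin (n + 1) → MvPolynomial (Fin k) E) F =
      aeval ρ' (spec e F) := by
  have h : (aeval (Fin.cons (C e) ρ' : Fin (n + 1) → MvPolynomial (Fin k) E)) =
      (aeval ρ').comp (spec e) := by
    apply MvPolynomial.algHom_ext
    intro i
    refine Fin.cases ?_ ?_ i
    · simp [spec]
    · intro j
      simp [spec]
  rw [h]
  rfl

theorem spec_aeval {n k : ℕ} (e : E) (ρ' : Fin n → MvPolynomial (Fin k) E)
    (F : MvPolynomial (Fin (n + 1)) E) :
    spec e (aeval (Fin.cons (X 0) (fun i => rename Fin.succ (ρ' i)) :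
      Fin (n + 1) → MvPolynomial (Fin (k + 1)) E) F) = aeval ρ' (spec e F) := by
  have h : (spec e).comp (aeval (Fin.cons (X 0) (fun i => rename Fin.succ (ρ' i)) :
      Fin (n + 1) → MvPolynomial (Fin (k + 1)) E)) = (aeval ρ').comp (spec e) := by
    apply MvPolynomial.algHom_ext
    intro i
    refine Fin.cases ?_ ?_ i
    · simp [spec]
    · intro j
      rw [AlgHom.comp_apply, AlgHom.comp_apply, aeval_X, Fin.cons_succ, spec_rename]
      simp [spec]
  exact congrFun (congrArg DFunLike.coe h) F

theorem eval_cons {n : ℕ} (θ : Fin (n + 1) → ℕ → E) (a : ℕ) (c' : Fin n → ℕ)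
    (F : MvPolynomial (Fin (n + 1)) E) :
    eval (fun i => θ i ((Fin.cons a c' : Fin (n + 1) → ℕ) i)) F =
      eval (fun i => θ i.succ (c' i)) (spec (θ 0 a) F) := by
  have h : eval (fun i => θ i ((Fin.cons a c' : Fin (n + 1) → ℕ) i)) =
      (eval (fun i => θ i.succ (c' i))).comp
        (spec (θ 0 a) : MvPolynomial (Fin (n + 1)) E →ₐ[E] MvPolynomial (Fin n) E).toRingHom := by
    apply MvPolynomial.ringHom_ext
    · intro r
      simp [spec]
    · intro i
      refine Fin.cases ?_ ?_ i
      · simp [spec]
      · intro j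
        simp [spec]
  rw [h]
  rfl

end

/-- **GRD** -/
theorem grd (hSpc : SpcStmt) (hStb : StbStmt) : GrdStmt := by
  intro E _ _ n
  induction n with
  | zero =>
    intro θ F _ hF
    have hC : F = C (constantCoeff F) := by
      exact eq_C_of_isEmpty F
    have hne : constantCoeff F ≠ 0 := by
      intro h
      rw [h, map_zero] at hC
      exact hF hC
    refine ⟨fun i => i.elim0, ?_, 0, fun i => i.elim0, fun i => i.elim0, ?_, ?_⟩
    · rw [hC, eval_C]
      exact hne
    · rw [hC, aeval_C]
      intro h
      apply hne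
      exact (map_eq_zero_iff _ (C_injective (Fin 0) E)).1 h
    · refine ⟨fun _ => 1, ?_⟩
      have hp : (∏ i : Fin 0, max 1 ((fun i : Fin 0 => (i.elim0 : ℕ)) i)) = 1 := by simp
      haveI : Subsingleton (Fin (∏ i : Fin 0, max 1 ((fun i : Fin 0 => (i.elim0 : ℕ)) i))) := by
        rw [hp]
        infer_instance
      haveI : Subsingleton (Fin (∏ i : Fin 0, max 1 ((fun i : Fin 0 => (i.elim0 : ℕ)) i)) ×
          (Fin 0 →₀ ℕ)) := inferInstance
      refine LinearIndependent.of_subsingleton
        (⟨⟨0, by rw [hp]; omega⟩, 0⟩) ?_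
      simp
  | succ n ih =>
    intro θ F hθ hF
    classical
    have hex := spec_exists (hθ 0) hF
    obtain ⟨a, ha, hmin⟩ : ∃ a, spec (θ 0 a) F ≠ 0 ∧ ∀ j < a, spec (θ 0 j) F = 0 :=
      ⟨Nat.find hex, Nat.find_spec hex, fun j hj => by
        have := Nat.find_min hex hj
        push Not at this
        exact this⟩
    obtain ⟨c', hc', k', ρ', hρ', hG2, hInd⟩ := ih (fun i => θ i.succ) (spec (θ 0 a) F)
      (fun i => hθ i.succ) ha
    have hprod : ∏ i, max 1 ((Fin.cons a c' : Fin (n + 1) → ℕ) i) =
        max 1 a * ∏ i, max 1 (c' i) := by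
      rw [Fin.prod_univ_succ]
      simp
    refine ⟨Fin.cons a c', ?_, ?_⟩
    · rw [eval_cons]
      exact hc'
    · rw [hprod]
      rcases Nat.eq_zero_or_pos a with h0 | h0
      · subst h0
        refine ⟨k', Fin.cons (C (θ 0 0)) ρ', ?_, ?_, ?_⟩
        · intro i
          refine Fin.cases ?_ ?_ i
          · right
            exact ⟨θ 0 0, by simp⟩
          · intro j
            simpa using hρ' j
        · rw [aeval_cons]
          exact hG2
        · rw [aeval_cons]
          simpa using hInd
      · have hmax : max 1 a = a := by omega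
        rw [hmax]
        have hsp := spec_aeval (θ 0 a) ρ' F
        have hGne : (aeval (Fin.cons (X 0) (fun i => rename Fin.succ (ρ' i)) :
            Fin (n + 1) → MvPolynomial (Fin (k' + 1)) E) F) ≠ 0 := by
          intro h
          rw [h, map_zero] at hsp
          exact hG2 hsp.symm
        refine ⟨k' + 1, Fin.cons (X 0) (fun i => rename Fin.succ (ρ' i)), ?_, hGne, ?_⟩
        · intro i
          refine Fin.cases ?_ ?_ i
          · left
            exact ⟨0, by simp⟩
          · intro j
            rw [Fin.cons_succ]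
            rcases hρ' j with ⟨l, hl⟩ | ⟨e, he⟩
            · left
              exact ⟨l.succ, by rw [hl, rename_X]⟩
            · right
              exact ⟨e, by rw [he, rename_C]⟩
        · refine hStb E k' _ a _ (θ 0) hGne h0 (hθ 0) ?_ ?_
          · intro j hj
            have h1 := spec_dvd (hmin j hj)
            have h2 := map_dvd (aeval (Fin.cons (X 0) (fun i => rename Fin.succ (ρ' i)) :
              Fin (n + 1) → MvPolynomial (Fin (k' + 1)) E)) h1
            rw [map_sub, aeval_X, Fin.cons_zero, aeval_C] at h2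
            exact h2
          · refine hSpc E k' _ _ (θ 0 a) ?_ ?_
            · rw [hsp]
              exact hG2
            · rw [hsp]
              exact hInd

end Pool.Agent.CPT.H23
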